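import Pool.Agent.T2H18.SC.Final

/-!
# Balanced trisections with the same core which are not isotopic

Group trisections (Abrams, Gay, Kirby, *Group trisections and smooth 4-manifolds*, Geom. Topol. 22
(2018)) are the algebraic form of trisections of closed oriented smooth 4-manifolds: a balanced
`(g,k)` trisection is a triple of epimorphisms from the surface group of genus `g` onto the free
group of rank `g` (the three handlebodies) such that each pairwise push-out is free of rank `k`
(the three sectors).

Let `U` be the trisection of genus three of a spun lens space (with sectors of rank one) and let
`rot U` be the same trisection with the labels of its sectors permuted cyclically. The manifold
and the core of a connected sum of trisections depend only on the manifolds and the cores of the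
summands: the sum is taken along the boundary `(S³, unknot)` of a small pair of balls
`(B⁴, B²)` around a point of each core, and the three sectors meet `S³` in three lunes of the
standard open book of the unknot; a cyclic change of the labels of one summand changes the gluing
map by the rotation of `S³` around the unknot by one third of a full turn, and this is isotopic to
the identity relative to the unknot. This is the relation `SameCore` below. So the connected sums
of `2M` copies of `U` of which `t` copies are rotated, `t = 0, ..., M`, are trisections of one
manifold, with the same core. We prove that no two of them are diffeomorphic: there is no
isomorphism of the closed surface groups, orientation-preserving or not, which carries the three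
kernels of one onto those of the other in any order (`WeakIso`). In particular they are not
isotopic, and the question has a negative answer.

The invariant is a determinant with values in `(ZMod n)ˣ` up to sign and a common factor, a form
of the Nielsen class of the three pairs of handlebodies.
-/

namespace Pool.Agent.Results.MP_5efd29_gt.SameCoreTrisections

open Pool.Agent.Y524F Pool.Agent.T2H18.SC

/-- For every `M` there are `M + 1` balanced `(6M, 2M)` trisections of one closed 4-manifold, with
the same core, which are pairwise not diffeomorphic (in any order of the sectors). -/
theorem result (M : ℕ) : ∃ T : Fin (M + 1) → Triple, (∀ t, (T t).g = 6 * M) ∧
    (∀ t, IsTrisection (T t) (2 * M)) ∧ (∀ s t, SameCore (T s) (T t)) ∧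
    ∀ s t, s ≠ t → ¬ WeakIso (T s) (T t) :=
  final M

end Pool.Agent.Results.MP_5efd29_gt.SameCoreTrisections
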